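import Mathlib

/-!
The flow argument of [AF2] (MP_ea8a26): log-concavity is transported from the lines `c = 0` and
`β = 0` to the strip `c ≥ 0`, `0 ≤ β ≤ 1`.
-/

set_option autoImplicit false

namespace Pool.Agent.Helper64.AF

open Set Filter Topology Polynomial

/-- A function which is at least its value at the right end point has nonpositive derivative there. -/
theorem left_deriv_nonpos {f : ℝ → ℝ} {f' x : ℝ} (hf : HasDerivAt f f' x) {l : ℝ} (hl : l < x)
    (h : ∀ t, l < t → t < x → f x ≤ f t) : f' ≤ 0 := by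
  have h1 : Tendsto (slope f x) (𝓝[<] x) (𝓝 f') :=
    (hasDerivAt_iff_tendsto_slope.1 hf).mono_left
      (nhdsWithin_mono _ (fun y (hy : y < x) => ne_of_lt hy))
  refine le_of_tendsto h1 ?_
  have : ∀ᶠ t in 𝓝[<] x, l < t ∧ t < x := by
    have h2 : Ioo l x ∈ 𝓝[<] x := Ioo_mem_nhdsLT hl
    filter_upwards [h2] with t ht using ht
  filter_upwards [this] with t ht
  rw [slope_def_field]
  exact div_nonpos_of_nonneg_of_nonpos (by linarith [h t ht.1 ht.2]) (by linarith [ht.2])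

/-- The minimum argument. -/
theorem strip_nonneg (D Dc Db e3 e2 y : ℝ → ℝ → ℝ) (C : ℝ)
    (hD : Continuous fun p : ℝ × ℝ => D p.1 p.2)
    (h3 : Continuous fun p : ℝ × ℝ => e3 p.1 p.2)
    (hy : Continuous fun p : ℝ × ℝ => y p.1 p.2)
    (hc : ∀ c b, HasDerivAt (fun c => D c b) (Dc c b) c)
    (hb : ∀ c b, HasDerivAt (fun b => D c b) (Db c b) b)
    (p3 : ∀ c b, 0 ≤ c → 0 ≤ b → b ≤ 1 → 0 < e3 c b)
    (p2 : ∀ c b, 0 ≤ c → 0 ≤ b → b ≤ 1 → 0 ≤ e2 c b)
    (tr : ∀ c b, 0 ≤ c → 0 ≤ b → b ≤ 1 → y c b * D c b ≤ e3 c b * Dc c b + e2 c b * Db c b)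
    (h0 : ∀ b, 0 ≤ b → b ≤ 1 → 0 ≤ D 0 b)
    (h1 : ∀ c, 0 ≤ c → 0 ≤ D c 0) :
    ∀ c b, 0 ≤ c → c ≤ C → 0 ≤ b → b ≤ 1 → 0 ≤ D c b := by
  intro c b hc0 hcC hb0 hb1
  set K : Set (ℝ × ℝ) := Icc (0 : ℝ) C ×ˢ Icc (0 : ℝ) 1 with hK
  have hKc : IsCompact K := isCompact_Icc.prod isCompact_Icc
  have hmem : (c, b) ∈ K := ⟨⟨hc0, hcC⟩, ⟨hb0, hb1⟩⟩
  -- the constant
  obtain ⟨M, hM⟩ : ∃ M : ℝ, ∀ p ∈ K, y p.1 p.2 < M * e3 p.1 p.2 := by
    have hcont : ContinuousOn (fun p : ℝ × ℝ => y p.1 p.2 / e3 p.1 p.2) K := by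
      refine hy.continuousOn.div h3.continuousOn ?_
      intro p hp
      exact (p3 p.1 p.2 hp.1.1 hp.2.1 hp.2.2).ne'
    obtain ⟨p0, hp0, hmax⟩ := hKc.exists_isMaxOn ⟨_, hmem⟩ hcont
    refine ⟨y p0.1 p0.2 / e3 p0.1 p0.2 + 1, fun p hp => ?_⟩
    have hpos := p3 p.1 p.2 hp.1.1 hp.2.1 hp.2.2
    have := hmax hp
    simp only [Set.mem_ofPred_eq] at this
    have h4 : y p.1 p.2 ≤ (y p0.1 p0.2 / e3 p0.1 p0.2) * e3 p.1 p.2 := by
      rwa [div_le_iff₀ hpos] at this
    nlinarith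
  have hG : Continuous fun p : ℝ × ℝ => Real.exp (-(M * p.1)) * D p.1 p.2 :=
    (Real.continuous_exp.comp (continuous_const.mul continuous_fst).neg).mul hD
  obtain ⟨q, hq, hmin⟩ := hKc.exists_isMinOn ⟨_, hmem⟩ hG.continuousOn
  obtain ⟨c0, b0⟩ := q
  have hmin' : ∀ p ∈ K, Real.exp (-(M * c0)) * D c0 b0 ≤ Real.exp (-(M * p.1)) * D p.1 p.2 :=
    fun p hp => hmin hp
  have hc00 : 0 ≤ c0 := hq.1.1
  have hc0C : c0 ≤ C := hq.1.2
  have hb00 : 0 ≤ b0 := hq.2.1
  have hb01 : b0 ≤ 1 := hq.2.2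
  by_contra hneg
  push Not at hneg
  have hDneg : D c0 b0 < 0 := by
    by_contra h
    push Not at h
    have h5 := hmin' (c, b) hmem
    have h6 : 0 ≤ Real.exp (-(M * c0)) * D c0 b0 := mul_nonneg (Real.exp_pos _).le h
    have h7 : Real.exp (-(M * c)) * D c b < 0 := mul_neg_of_pos_of_neg (Real.exp_pos _) hneg
    simp only at h5
    linarith
  have hcpos : 0 < c0 := by
    rcases hc00.lt_or_eq with h | h
    · exact h
    · rw [← h] at hDneg
      exact absurd (h0 b0 hb00 hb01) (not_le.2 hDneg)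
  have hbpos : 0 < b0 := by
    rcases hb00.lt_or_eq with h | h
    · exact h
    · rw [← h] at hDneg
      exact absurd (h1 c0 hc00) (not_le.2 hDneg)
  have hexp : ∀ x, HasDerivAt (fun x : ℝ => Real.exp (-(M * x))) (Real.exp (-(M * x)) * (-M)) x := by
    intro x
    have h8 : HasDerivAt (fun x : ℝ => -(M * x)) (-M) x := by
      simpa using ((hasDerivAt_id x).const_mul M).fun_neg
    exact h8.exp
  have hdc : Dc c0 b0 ≤ M * D c0 b0 := by
    have h9 := (hexp c0).mul (hc c0 b0)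
    have h10 := left_deriv_nonpos h9 hcpos (fun t ht1 ht2 =>
      hmin' (t, b0) ⟨⟨ht1.le, by linarith⟩, ⟨hb00, hb01⟩⟩)
    have h11 : Real.exp (-(M * c0)) * (Dc c0 b0 - M * D c0 b0) ≤ 0 := by
      have : Real.exp (-(M * c0)) * (Dc c0 b0 - M * D c0 b0) =
        Real.exp (-(M * c0)) * -M * D c0 b0 + Real.exp (-(M * c0)) * Dc c0 b0 := by ring
      rw [this]; exact h10
    have h12 := Real.exp_pos (-(M * c0))
    by_contra h
    push Not at h
    have := mul_pos h12 (sub_pos.2 h)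
    linarith
  have hdb : Db c0 b0 ≤ 0 := by
    refine left_deriv_nonpos (hb c0 b0) hbpos (fun t ht1 ht2 => ?_)
    have h13 := hmin' (c0, t) ⟨⟨hc00, hc0C⟩, ⟨ht1.le, by linarith⟩⟩
    exact le_of_mul_le_mul_left h13 (Real.exp_pos _)
  have t1 := tr c0 b0 hc00 hb00 hb01
  have q3 := p3 c0 b0 hc00 hb00 hb01
  have q2 := p2 c0 b0 hc00 hb00 hb01
  have t2 := hM (c0, b0) ⟨⟨hc00, hc0C⟩, ⟨hb00, hb01⟩⟩
  simp only at t2
  have t3 : e3 c0 b0 * Dc c0 b0 ≤ e3 c0 b0 * (M * D c0 b0) := mul_le_mul_of_nonneg_left hdc q3.le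
  have t4 : e2 c0 b0 * Db c0 b0 ≤ 0 := mul_nonpos_of_nonneg_of_nonpos q2 hdb
  nlinarith [mul_pos_of_neg_of_neg hDneg (sub_neg.2 t2)]

/-! ### The polynomials `e_k(c, β) = [τ^k] G(τ, β + c τ)` -/

/-- `Σ_(m ≤ k) c^m u_(k-m)^(m) / m!`. -/
noncomputable def E (u : ℕ → ℝ[X]) (c : ℝ) (k : ℕ) : ℝ[X] :=
  ∑ m ∈ Finset.range (k + 1), c ^ m • hasseDeriv m (u (k - m))

/-- The value. -/
theorem E_eval (u : ℕ → ℝ[X]) (c b : ℝ) (k : ℕ) : (E u c k).eval b =
    ∑ m ∈ Finset.range (k + 1), c ^ m * (hasseDeriv m (u (k - m))).eval b := by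
  simp [E, Polynomial.eval_finsetSum]

/-- The derivative in `β` of the index `k - 1`, which is zero for `k = 0`. -/
noncomputable def Y (u : ℕ → ℝ[X]) (c : ℝ) : ℕ → ℝ[X]
  | 0 => 0
  | k + 1 => derivative (E u c k)

theorem hasDerivAt_E (u : ℕ → ℝ[X]) (b : ℝ) (k : ℕ) (c : ℝ) :
    HasDerivAt (fun c => (E u c k).eval b) ((Y u c k).eval b) c := by
  have h1 : ∀ m ∈ Finset.range (k + 1), HasDerivAt
      (fun c : ℝ => c ^ m * (hasseDeriv m (u (k - m))).eval b)
      (((m : ℝ) * c ^ (m - 1)) * (hasseDeriv m (u (k - m))).eval b) c := by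
    intro m _
    exact (hasDerivAt_pow m c).mul_const _
  have h2 := HasDerivAt.fun_sum h1
  have e1 : (fun c => (E u c k).eval b) =
      fun c : ℝ => ∑ m ∈ Finset.range (k + 1), c ^ m * (hasseDeriv m (u (k - m))).eval b := by
    funext c; exact E_eval u c b k
  rw [e1]
  have e2 : (Y u c k).eval b = ∑ m ∈ Finset.range (k + 1),
      ((m : ℝ) * c ^ (m - 1)) * (hasseDeriv m (u (k - m))).eval b := by
    cases k with
    | zero => simp [Y]
    | succ k =>
      rw [Finset.sum_range_succ']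
      simp only [Nat.cast_zero, zero_mul, add_zero, Y, E]
      rw [derivative_sum, Polynomial.eval_finsetSum]
      refine Finset.sum_congr rfl fun m _ => ?_
      have e3 : k + 1 - (m + 1) = k - m := by omega
      rw [e3, derivative_smul, eval_smul, smul_eq_mul]
      have e4 : derivative (hasseDeriv m (u (k - m))) =
          ((m : ℝ) + 1) • hasseDeriv (m + 1) (u (k - m)) := by
        have := congrArg (fun f => f (u (k - m))) (hasseDeriv_comp (R := ℝ) 1 m)
        simp only [LinearMap.comp_apply, LinearMap.smul_apply, hasseDeriv_one'] at this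
        rw [this]
        have e5 : (1 + m).choose 1 = m + 1 := by rw [Nat.choose_one_right, add_comm]
        rw [e5, add_comm 1 m]
        simp [← Nat.cast_smul_eq_nsmul ℝ]
      rw [e4, eval_smul, smul_eq_mul, Nat.add_sub_cancel]
      push_cast
      ring
  rw [e2]
  exact h2

/-- `e_(k-1)`, which is zero for `k = 0`. -/
noncomputable def Em (u : ℕ → ℝ[X]) (c : ℝ) : ℕ → ℝ[X]
  | 0 => 0
  | k + 1 => E u c k

theorem Y_eq (u : ℕ → ℝ[X]) (c : ℝ) (k : ℕ) : Y u c k = derivative (Em u c k) := by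
  cases k with
  | zero => simp [Y, Em]
  | succ k => rfl

theorem E_continuous (u : ℕ → ℝ[X]) (k : ℕ) :
    Continuous fun p : ℝ × ℝ => (E u p.1 k).eval p.2 := by
  have : (fun p : ℝ × ℝ => (E u p.1 k).eval p.2) = fun p : ℝ × ℝ =>
      ∑ m ∈ Finset.range (k + 1), p.1 ^ m * (hasseDeriv m (u (k - m))).eval p.2 := by
    funext p; exact E_eval u p.1 p.2 k
  rw [this]
  exact continuous_finsetSum _ fun m _ =>
    (continuous_fst.pow m).mul ((Polynomial.continuous _).comp continuous_snd)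

theorem dE_continuous (u : ℕ → ℝ[X]) (k : ℕ) :
    Continuous fun p : ℝ × ℝ => (derivative (E u p.1 k)).eval p.2 := by
  have : (fun p : ℝ × ℝ => (derivative (E u p.1 k)).eval p.2) = fun p : ℝ × ℝ =>
      ∑ m ∈ Finset.range (k + 1), p.1 ^ m * (derivative (hasseDeriv m (u (k - m)))).eval p.2 := by
    funext p
    simp only [E]
    rw [derivative_sum, Polynomial.eval_finsetSum]
    refine Finset.sum_congr rfl fun m _ => ?_
    rw [derivative_smul, eval_smul, smul_eq_mul]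
  rw [this]
  exact continuous_finsetSum _ fun m _ =>
    (continuous_fst.pow m).mul ((Polynomial.continuous _).comp continuous_snd)

/-- **The flow.** If `K = e_k e_(k+1) - e_(k-1) e_(k+2)` increases relative to `e_(k+2)` in `β`
(inequality (I1)) on the strip, then log-concavity at `k + 1` is transported from the lines
`c = 0` and `β = 0` to the strip. -/
theorem flow (u : ℕ → ℝ[X]) (k : ℕ)
    (p3 : ∀ c b : ℝ, 0 ≤ c → 0 ≤ b → b ≤ 1 → 0 < (E u c (k + 2)).eval b)
    (p2 : ∀ c b : ℝ, 0 ≤ c → 0 ≤ b → b ≤ 1 → 0 ≤ (E u c (k + 1)).eval b)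
    (I1 : ∀ c b : ℝ, 0 ≤ c → 0 ≤ b → b ≤ 1 →
      0 ≤ (E u c (k + 2) * derivative (E u c k * E u c (k + 1) - Em u c k * E u c (k + 2))
        - derivative (E u c (k + 2)) *
          (E u c k * E u c (k + 1) - Em u c k * E u c (k + 2))).eval b)
    (h0 : ∀ b : ℝ, 0 ≤ b → b ≤ 1 →
      (u k).eval b * (u (k + 2)).eval b ≤ (u (k + 1)).eval b ^ 2)
    (h1 : ∀ c : ℝ, 0 ≤ c → (E u c k).eval 0 * (E u c (k + 2)).eval 0 ≤ (E u c (k + 1)).eval 0 ^ 2) :
    ∀ c b : ℝ, 0 ≤ c → 0 ≤ b → b ≤ 1 →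
      (E u c k).eval b * (E u c (k + 2)).eval b ≤ (E u c (k + 1)).eval b ^ 2 := by
  have E0 : ∀ j, E u 0 j = u j := by
    intro j
    rw [E, Finset.sum_eq_single 0]
    · simp
    · intro m _ hm
      rw [zero_pow hm, zero_smul]
    · intro h; simp at h
  intro c b hc hb hb1
  have key := strip_nonneg
    (fun c b => (E u c (k + 1)).eval b ^ 2 - (E u c k).eval b * (E u c (k + 2)).eval b)
    (fun c b => 2 * (E u c (k + 1)).eval b * (Y u c (k + 1)).eval b
      - ((Y u c k).eval b * (E u c (k + 2)).eval b + (E u c k).eval b * (Y u c (k + 2)).eval b))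
    (fun c b => 2 * (E u c (k + 1)).eval b * (derivative (E u c (k + 1))).eval b
      - ((derivative (E u c k)).eval b * (E u c (k + 2)).eval b
        + (E u c k).eval b * (derivative (E u c (k + 2))).eval b))
    (fun c b => (E u c (k + 2)).eval b) (fun c b => (E u c (k + 1)).eval b)
    (fun c b => 2 * (derivative (E u c (k + 1))).eval b) c
    (by
      have a1 := E_continuous u (k + 1)
      have a2 := E_continuous u k
      have a3 := E_continuous u (k + 2)
      exact (a1.pow 2).sub (a2.mul a3))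
    (E_continuous u (k + 2))
    (continuous_const.mul (dE_continuous u (k + 1)))
    (by
      intro c b
      have a1 := hasDerivAt_E u b (k + 1) c
      have a2 := hasDerivAt_E u b k c
      have a3 := hasDerivAt_E u b (k + 2) c
      exact ((a1.fun_pow 2).fun_sub (a2.fun_mul a3)).congr_deriv (by norm_num))
    (by
      intro c b
      have a1 := (E u c (k + 1)).hasDerivAt b
      have a2 := (E u c k).hasDerivAt b
      have a3 := (E u c (k + 2)).hasDerivAt b
      exact ((a1.fun_pow 2).fun_sub (a2.fun_mul a3)).congr_deriv (by norm_num))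
    p3 p2
    (by
      intro c b hc hb hb1
      have h := I1 c b hc hb hb1
      simp only [derivative_sub, derivative_mul, eval_sub, eval_mul, eval_add] at h
      have e1 : (Y u c (k + 1)).eval b = (derivative (E u c k)).eval b := rfl
      have e2 : (Y u c (k + 2)).eval b = (derivative (E u c (k + 1))).eval b := rfl
      rw [e1, e2, Y_eq]
      nlinarith)
    (by
      intro b hb hb1
      have := h0 b hb hb1
      rw [E0, E0, E0]
      linarith)
    (by
      intro c hc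
      have := h1 c hc
      linarith)
    c b hc le_rfl hb hb1
  linarith

end Pool.Agent.Helper64.AF
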