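import Mathlib

/-!
Lemma C of [AF2] (MP_ea8a26): the likelihood ratio order.

`a, b, c, d` are four sequences of reals (the coefficients in `β` of `u_(k-2), u_(k-1), u_k, u_(k+1)`),
`κ_s = Σ_(y+z=s) (c_y b_z - d_y a_z)`. If `c, d` interlace and
`d_m a_(m+1) ≤ c_m b_(m+1)`, `d_m a_(m+2) ≤ c_(m+1) b_(m+1)`, then `d_(x+1) κ_x ≤ d_x κ_(x+1)`.
-/

set_option autoImplicit false

namespace Pool.Agent.Helper64.AF

open Finset

/-- The hypotheses on the two interlacing sequences `c, d` up to the index `x`. -/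
structure Inter (c d : ℕ → ℝ) (x : ℕ) : Prop where
  cpos : ∀ m, m ≤ x → 0 < c m
  dpos : ∀ m, m ≤ x → 0 < d m
  dnn : 0 ≤ d (x + 1)
  h1 : ∀ m, m ≤ x → c m * d (m + 1) ≤ c (m + 1) * d m
  h2 : ∀ m, m + 1 ≤ x → c (m + 2) * d m ≤ c (m + 1) * d (m + 1)

variable {c d : ℕ → ℝ} {x : ℕ}

/-- `c_m / d_m` is nondecreasing. -/
theorem Inter.rho (H : Inter c d x) : ∀ j i, i ≤ j → j ≤ x → c i * d j ≤ c j * d i := by
  intro j
  induction j with
  | zero =>
    intro i hi _
    have : i = 0 := by omega
    subst this; exact le_rfl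
  | succ j ih =>
    intro i hi hj
    rcases Nat.eq_or_lt_of_le hi with h | h
    · rw [h]
    · have h3 := ih i (by omega) (by omega)
      have h4 := H.h1 j (by omega)
      have p1 := H.dpos j (by omega)
      have p2 := H.dpos i (by omega)
      have p3 := H.dpos (j + 1) hj
      have p4 := H.cpos i (by omega)
      have : (c i * d (j + 1)) * d j ≤ (c (j + 1) * d i) * d j := by
        calc (c i * d (j + 1)) * d j = (c i * d j) * d (j + 1) := by ring
          _ ≤ (c j * d i) * d (j + 1) := mul_le_mul_of_nonneg_right h3 p3.le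
          _ = (c j * d (j + 1)) * d i := by ring
          _ ≤ (c (j + 1) * d j) * d i := mul_le_mul_of_nonneg_right h4 p2.le
          _ = (c (j + 1) * d i) * d j := by ring
      exact le_of_mul_le_mul_right this p1

/-- `c_(m+1) / d_m` is nonincreasing. -/
theorem Inter.rho' (H : Inter c d x) : ∀ j i, i ≤ j → j + 1 ≤ x →
    c (j + 1) * d i ≤ c (i + 1) * d j := by
  intro j
  induction j with
  | zero =>
    intro i hi _
    have : i = 0 := by omega
    subst this; exact le_rfl
  | succ j ih =>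
    intro i hi hj
    rcases Nat.eq_or_lt_of_le hi with h | h
    · rw [h]
    · have h3 := ih i (by omega) (by omega)
      have h4 := H.h2 j (by omega)
      have p1 := H.dpos j (by omega)
      have p2 := H.dpos i (by omega)
      have p3 := H.dpos (j + 1) (by omega)
      have : (c (j + 1 + 1) * d i) * d j ≤ (c (i + 1) * d (j + 1)) * d j := by
        calc (c (j + 1 + 1) * d i) * d j = (c (j + 2) * d j) * d i := by ring
          _ ≤ (c (j + 1) * d (j + 1)) * d i := mul_le_mul_of_nonneg_right h4 p2.le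
          _ = (c (j + 1) * d i) * d (j + 1) := by ring
          _ ≤ (c (i + 1) * d j) * d (j + 1) := mul_le_mul_of_nonneg_right h3 p3.le
          _ = (c (i + 1) * d (j + 1)) * d j := by ring
      exact le_of_mul_le_mul_right this p1

/-- One step of log-concavity of `d`. -/
theorem Inter.lc1 (H : Inter c d x) {m : ℕ} (hm : m + 1 ≤ x) :
    d (m + 2) * d m ≤ d (m + 1) * d (m + 1) := by
  have h3 := H.h1 (m + 1) hm
  have h4 := H.h2 m hm
  have p1 := H.cpos (m + 1) hm
  have p2 := H.dpos (m + 1) hm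
  have p3 := H.dpos m (by omega)
  have : c (m + 1) * (d (m + 2) * d m) ≤ c (m + 1) * (d (m + 1) * d (m + 1)) := by
    calc c (m + 1) * (d (m + 2) * d m) = (c (m + 1) * d (m + 1 + 1)) * d m := by ring
      _ ≤ (c (m + 1 + 1) * d (m + 1)) * d m := mul_le_mul_of_nonneg_right h3 p3.le
      _ = (c (m + 2) * d m) * d (m + 1) := by ring
      _ ≤ (c (m + 1) * d (m + 1)) * d (m + 1) := mul_le_mul_of_nonneg_right h4 p2.le
      _ = c (m + 1) * (d (m + 1) * d (m + 1)) := by ring
  exact le_of_mul_le_mul_left this p1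

/-- `d_(m+1) / d_m` is nonincreasing. -/
theorem Inter.lc (H : Inter c d x) : ∀ j i, i ≤ j → j ≤ x →
    d (j + 1) * d i ≤ d j * d (i + 1) := by
  intro j
  induction j with
  | zero =>
    intro i hi _
    have : i = 0 := by omega
    subst this; exact le_of_eq (mul_comm _ _)
  | succ j ih =>
    intro i hi hj
    rcases Nat.eq_or_lt_of_le hi with h | h
    · rw [h]; exact le_of_eq (mul_comm _ _)
    · have h3 := ih i (by omega) (by omega)
      have h4 := H.lc1 (m := j) (by omega)
      have p1 := H.dpos j (by omega)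
      have p2 := H.dpos i (by omega)
      have p3 := H.dpos (j + 1) (by omega)
      have : (d (j + 1 + 1) * d i) * d j ≤ (d (j + 1) * d (i + 1)) * d j := by
        calc (d (j + 1 + 1) * d i) * d j = (d (j + 2) * d j) * d i := by ring
          _ ≤ (d (j + 1) * d (j + 1)) * d i := mul_le_mul_of_nonneg_right h4 p2.le
          _ = (d (j + 1) * d i) * d (j + 1) := by ring
          _ ≤ (d j * d (i + 1)) * d (j + 1) := mul_le_mul_of_nonneg_right h3 p3.le
          _ = (d (j + 1) * d (i + 1)) * d j := by ring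
      exact le_of_mul_le_mul_right this p1

/-- `e f_w - e' f_(w-1)`. -/
def Cg (f : ℕ → ℝ) (e e' : ℝ) : ℕ → ℝ
  | 0 => e * f 0
  | w + 1 => e * f (w + 1) - e' * f w

/-- `C_w = d_x c_w - d_(x+1) c_(w-1)`; with `c := d` this is `D_w`. -/
abbrev Cf (c d : ℕ → ℝ) (x : ℕ) : ℕ → ℝ := Cg c (d x) (d (x + 1))

theorem Inter.D_nonneg (H : Inter c d x) : ∀ w, w ≤ x → 0 ≤ Cf d d x w := by
  intro w hw
  cases w with
  | zero =>
    have := H.dpos x le_rfl
    have := H.dpos 0 (by omega)
    simp only [Cf, Cg]; positivity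
  | succ w =>
    have := H.lc x w (by omega) le_rfl
    simp only [Cf, Cg]; linarith

/-- `c_w D_w ≤ d_w C_w`. -/
theorem Inter.C_ge (H : Inter c d x) : ∀ w, w ≤ x → c w * Cf d d x w ≤ d w * Cf c d x w := by
  intro w hw
  cases w with
  | zero => simp only [Cf, Cg]; exact le_of_eq (by ring)
  | succ w =>
    have := H.h1 w (by omega)
    have p := H.dnn
    simp only [Cf, Cg]
    nlinarith [mul_le_mul_of_nonneg_left this p]

/-- `d_w C_(w+1) ≤ c_(w+1) D_w`. -/
theorem Inter.C_le (H : Inter c d x) : ∀ w, w + 1 ≤ x →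
    d w * Cf c d x (w + 1) ≤ c (w + 1) * Cf d d x w := by
  intro w hw
  cases w with
  | zero =>
    have := H.cpos 0 (by omega)
    have := H.dpos 0 (by omega)
    have p := H.dnn
    have : 0 ≤ d (x + 1) * (d 0 * c 0) := by positivity
    simp only [Cf, Cg]
    nlinarith
  | succ w =>
    have := H.h2 w (by omega)
    have p := H.dnn
    simp only [Cf, Cg]
    nlinarith [mul_le_mul_of_nonneg_left this p]

/-- `c_(y) D_(y+1) ≤ d_(y) C_(y+1)`. -/
theorem Inter.C_ge' (H : Inter c d x) : ∀ y, y + 1 ≤ x →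
    c y * Cf d d x (y + 1) ≤ d y * Cf c d x (y + 1) := by
  intro y hy
  have := H.h1 y (by omega)
  have p := (H.dpos x le_rfl).le
  simp only [Cf, Cg]
  nlinarith [mul_le_mul_of_nonneg_left this p]

/-- `P_w = C_w d_(x-w)`. -/
def Pf (c d : ℕ → ℝ) (x w : ℕ) : ℝ := Cf c d x w * d (x - w)
/-- `Q_w = D_w c_(x-w)`. -/
def Qf (c d : ℕ → ℝ) (x w : ℕ) : ℝ := Cf d d x w * c (x - w)
/-- `Z_n = Σ_(w ≤ n) (Q_w - P_w)`. -/
def Zf (c d : ℕ → ℝ) (x n : ℕ) : ℝ := ∑ w ∈ range (n + 1), (Qf c d x w - Pf c d x w)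

theorem Zf_zero : Zf c d x 0 = Qf c d x 0 - Pf c d x 0 := by simp [Zf]

theorem Zf_succ (n : ℕ) : Zf c d x (n + 1) = Zf c d x n + (Qf c d x (n + 1) - Pf c d x (n + 1)) := by
  rw [Zf, Finset.sum_range_succ, ← Zf]

theorem shift_sum (f g : ℕ → ℝ) (e e' : ℝ) (x : ℕ) :
    ∑ w ∈ range (x + 1), Cg f e e' w * g w
      = e * ∑ w ∈ range (x + 1), f w * g w - e' * ∑ w ∈ range x, f w * g (w + 1) := by
  rw [Finset.sum_range_succ' _ x, Finset.sum_range_succ' _ x]
  simp only [Cg]
  rw [mul_add, Finset.mul_sum, Finset.mul_sum]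
  have h : ∀ w ∈ range x, (e * f (w + 1) - e' * f w) * g (w + 1)
      = e * (f (w + 1) * g (w + 1)) - e' * (f w * g (w + 1)) := by
    intro w _; ring
  rw [Finset.sum_congr rfl h, Finset.sum_sub_distrib]
  ring

theorem refl_sum (f g : ℕ → ℝ) (n : ℕ) :
    ∑ w ∈ range (n + 1), f w * g (n - w) = ∑ w ∈ range (n + 1), g w * f (n - w) := by
  rw [← Finset.sum_range_reflect (fun w => f w * g (n - w)) (n + 1)]
  refine Finset.sum_congr rfl fun w hw => ?_
  have hw' := Finset.mem_range.1 hw
  have e1 : n + 1 - 1 - w = n - w := by omega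
  have e2 : n - (n - w) = w := by omega
  simp only [e1, e2]
  ring

/-- The total sum vanishes. -/
theorem Zf_last : Zf c d x x = 0 := by
  unfold Zf
  rw [Finset.sum_sub_distrib]
  have hQ : ∑ w ∈ range (x + 1), Qf c d x w = d x * ∑ w ∈ range (x + 1), d w * c (x - w)
      - d (x + 1) * ∑ w ∈ range x, d w * c (x - (w + 1)) := by
    have := shift_sum d (fun w => c (x - w)) (d x) (d (x + 1)) x
    simpa [Qf] using this
  have hP : ∑ w ∈ range (x + 1), Pf c d x w = d x * ∑ w ∈ range (x + 1), c w * d (x - w)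
      - d (x + 1) * ∑ w ∈ range x, c w * d (x - (w + 1)) := by
    have := shift_sum c (fun w => d (x - w)) (d x) (d (x + 1)) x
    simpa [Pf] using this
  rw [hQ, hP, refl_sum c d x]
  cases x with
  | zero => simp
  | succ n =>
    have e : ∀ f g : ℕ → ℝ, ∑ w ∈ range (n + 1), f w * g (n + 1 - (w + 1))
        = ∑ w ∈ range (n + 1), f w * g (n - w) := by
      intro f g
      refine Finset.sum_congr rfl fun w _ => ?_
      have : n + 1 - (w + 1) = n - w := by omega
      rw [this]
    rw [e, e, refl_sum c d n]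
    ring

/-- (F1) -/
theorem Inter.F1 (H : Inter c d x) {w : ℕ} (hw : w ≤ x) (h2 : x ≤ 2 * w) :
    Qf c d x w ≤ Pf c d x w := by
  have a1 := H.C_ge w hw
  have a2 := H.D_nonneg w hw
  have a3 := H.rho w (x - w) (by omega) hw
  have p1 := H.dpos w hw
  have p2 := H.dpos (x - w) (by omega)
  have : Qf c d x w * d w ≤ Pf c d x w * d w := by
    calc Qf c d x w * d w = (c (x - w) * d w) * Cf d d x w := by unfold Qf; ring
      _ ≤ (c w * d (x - w)) * Cf d d x w := mul_le_mul_of_nonneg_right a3 a2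
      _ = (c w * Cf d d x w) * d (x - w) := by ring
      _ ≤ (d w * Cf c d x w) * d (x - w) := mul_le_mul_of_nonneg_right a1 p2.le
      _ = Pf c d x w * d w := by unfold Pf; ring
  exact le_of_mul_le_mul_right this p1

/-- (F2) -/
theorem Inter.F2 (H : Inter c d x) {w : ℕ} (hw : w + 1 ≤ x) (h2 : x ≤ 2 * w + 1) :
    Pf c d x (w + 1) ≤ Qf c d x w := by
  have a1 := H.C_le w hw
  have a2 := H.D_nonneg w (by omega)
  obtain ⟨y, hy⟩ : ∃ y, x = w + (y + 1) := ⟨x - w - 1, by omega⟩
  have a3 := H.rho' w y (by omega) hw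
  have p1 := H.dpos w (by omega)
  have p2 := H.dpos y (by omega)
  have e1 : x - (w + 1) = y := by omega
  have e2 : x - w = y + 1 := by omega
  have : Pf c d x (w + 1) * d w ≤ Qf c d x w * d w := by
    calc Pf c d x (w + 1) * d w = (d w * Cf c d x (w + 1)) * d y := by unfold Pf; rw [e1]; ring
      _ ≤ (c (w + 1) * Cf d d x w) * d y := mul_le_mul_of_nonneg_right a1 p2.le
      _ = (c (w + 1) * d y) * Cf d d x w := by ring
      _ ≤ (c (y + 1) * d w) * Cf d d x w := mul_le_mul_of_nonneg_right a3 a2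
      _ = Qf c d x w * d w := by unfold Qf; rw [e2]; ring
  exact le_of_mul_le_mul_right this p1

/-- `d_(x+1) v^(x-1)_n ≤ d_x v^x_n`, in the form `c_n D_y ≤ d_n C_y` for `n < y`. -/
theorem Inter.v_step (H : Inter c d x) {n y : ℕ} (hn : n ≤ y) (hy : y + 1 ≤ x) :
    c n * Cf d d x (y + 1) ≤ d n * Cf c d x (y + 1) := by
  have a1 := H.C_ge' y hy
  have a2 := H.D_nonneg (y + 1) hy
  have a3 := H.rho y n hn (by omega)
  have p1 := H.dpos y (by omega)
  have p2 := H.dpos n (by omega)
  have : (c n * Cf d d x (y + 1)) * d y ≤ (d n * Cf c d x (y + 1)) * d y := by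
    calc (c n * Cf d d x (y + 1)) * d y = (c n * d y) * Cf d d x (y + 1) := by ring
      _ ≤ (c y * d n) * Cf d d x (y + 1) := mul_le_mul_of_nonneg_right a3 a2
      _ = (c y * Cf d d x (y + 1)) * d n := by ring
      _ ≤ (d y * Cf c d x (y + 1)) * d n := mul_le_mul_of_nonneg_right a1 p2.le
      _ = (d n * Cf c d x (y + 1)) * d y := by ring
  exact le_of_mul_le_mul_right this p1

/-- `d_n C_(y+1) ≤ c_(n+1) D_y` for `n ≤ y`. -/
theorem Inter.T_step (H : Inter c d x) {n y : ℕ} (hn : n ≤ y) (hy : y + 1 ≤ x) :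
    d n * Cf c d x (y + 1) ≤ c (n + 1) * Cf d d x y := by
  have a1 := H.C_le y hy
  have a2 := H.D_nonneg y (by omega)
  have a3 := H.rho' y n hn hy
  have p1 := H.dpos y (by omega)
  have p2 := H.dpos n (by omega)
  have : (d n * Cf c d x (y + 1)) * d y ≤ (c (n + 1) * Cf d d x y) * d y := by
    calc (d n * Cf c d x (y + 1)) * d y = (d y * Cf c d x (y + 1)) * d n := by ring
      _ ≤ (c (y + 1) * Cf d d x y) * d n := mul_le_mul_of_nonneg_right a1 p2.le
      _ = (c (y + 1) * d n) * Cf d d x y := by ring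
      _ ≤ (c (n + 1) * d y) * Cf d d x y := mul_le_mul_of_nonneg_right a3 a2
      _ = (c (n + 1) * Cf d d x y) * d y := by ring
  exact le_of_mul_le_mul_right this p1

/-- (F3) -/
theorem Inter.F3 (H : Inter c d x) : ∀ n, 2 * n ≤ x →
    d x * (d n * c (x - n) - c n * d (x - n)) ≤ Zf c d x n := by
  intro n
  induction n with
  | zero =>
    intro _
    rw [Zf_zero]
    simp only [Qf, Pf, Cf, Cg, Nat.sub_zero]
    exact le_of_eq (by ring)
  | succ n ih =>
    intro hn
    obtain ⟨y, hy⟩ : ∃ y, x = n + (y + 1) := ⟨x - n - 1, by omega⟩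
    have e1 : x - (n + 1) = y := by omega
    have e2 : x - n = y + 1 := by omega
    have h1 := ih (by omega)
    have h2 := H.v_step (n := n) (y := y) (by omega) (by omega)
    rw [Zf_succ]
    simp only [Qf, Pf, Cf, Cg, e1, e2] at h1 h2 ⊢
    nlinarith

theorem Inter.Z_nonneg (H : Inter c d x) : ∀ n, n ≤ x → 0 ≤ Zf c d x n := by
  intro n hn
  rcases Nat.lt_or_ge x (2 * n) with h | h
  · have key : ∀ k n, n + k = x → x ≤ 2 * n + 1 → 0 ≤ Zf c d x n := by
      intro k
      induction k with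
      | zero =>
        intro n hn _
        have : n = x := by omega
        rw [this, Zf_last]
      | succ k ih =>
        intro n hn h2
        have h3 := ih (n + 1) (by omega) (by omega)
        have h4 := H.F1 (w := n + 1) (by omega) (by omega)
        rw [Zf_succ] at h3
        linarith
    exact key (x - n) n (by omega) (by omega)
  · have h1 := H.F3 n h
    have h2 := H.rho (x - n) n (by omega) (by omega)
    have p := H.dpos x le_rfl
    have : 0 ≤ d x * (d n * c (x - n) - c n * d (x - n)) :=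
      mul_nonneg p.le (by linarith)
    linarith

/-- (F4) for `U_(n+1) = Q_(n+1) - Z_(n+1)`. -/
theorem Inter.F4 (H : Inter c d x) : ∀ n, 2 * n + 1 ≤ x →
    c 0 * (d x * d x - d (x + 1) * d (x - 1)) +
      d x * (c (n + 1) * d (x - n - 1) - d n * c (x - n)) ≤
      Qf c d x (n + 1) - Zf c d x (n + 1) := by
  intro n
  induction n with
  | zero =>
    intro h0
    rw [Zf_succ, Zf_zero]
    simp only [Qf, Pf, Cf, Cg, Nat.sub_zero, Nat.zero_add]
    exact le_of_eq (by ring)
  | succ n ih =>
    intro hn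
    obtain ⟨y, hy⟩ : ∃ y, x = n + (y + 2) := ⟨x - n - 2, by omega⟩
    have e1 : x - (n + 1) = y + 1 := by omega
    have e2 : x - n = y + 2 := by omega
    have e3 : x - (n + 1 + 1) = y := by omega
    have e4 : x - n - 1 = y + 1 := by omega
    have e5 : x - (n + 1) - 1 = y := by omega
    have h1 := ih (by omega)
    have h2 := H.T_step (n := n) (y := y + 1) (by omega) (by omega)
    rw [Zf_succ]
    rw [e4] at h1
    rw [e5]
    simp only [Qf, Pf, Cf, Cg, e1, e2, e3] at h1 h2 ⊢
    nlinarith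

theorem Inter.U_nonneg (H : Inter c d x) : ∀ n, n ≤ x → 0 ≤ Qf c d x n - Zf c d x n := by
  intro n hn
  have p := H.dpos x le_rfl
  have pc := H.cpos 0 (by omega)
  rcases Nat.lt_or_ge (2 * n) (x + 1) with h | h
  · cases n with
    | zero =>
      rw [Zf_zero]
      have := H.dpos 0 (by omega)
      have : 0 ≤ Pf c d x 0 := by
        simp only [Pf, Cf, Cg, Nat.sub_zero]; positivity
      linarith
    | succ n =>
      have h1 := H.F4 n (by omega)
      have h2 := H.rho' (x - n - 1) n (by omega) (by omega)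
      have e : x - n - 1 + 1 = x - n := by omega
      rw [e] at h2
      have h3 := H.D_nonneg x le_rfl
      obtain ⟨y, hy⟩ : ∃ y, x = y + 1 := ⟨x - 1, by omega⟩
      have h4 : 0 ≤ d x * d x - d (x + 1) * d (x - 1) := by
        rw [hy] at h3 ⊢
        simpa [Cf, Cg] using h3
      have := mul_nonneg pc.le h4
      have := mul_nonneg p.le (sub_nonneg.2 h2)
      nlinarith
  · have key : ∀ k n, n + k = x → x ≤ 2 * n + 1 → 0 ≤ Qf c d x n - Zf c d x n := by
      intro k
      induction k with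
      | zero =>
        intro n hn _
        have : n = x := by omega
        rw [this, Zf_last, sub_zero]
        have h3 := H.D_nonneg x le_rfl
        simp only [Qf, Nat.sub_self]
        exact mul_nonneg h3 pc.le
      | succ k ih =>
        intro n hn h2
        have h3 := ih (n + 1) (by omega) (by omega)
        have h4 := H.F2 (w := n) (by omega) (by omega)
        rw [Zf_succ] at h3
        linarith
    exact key (x - n) n (by omega) (by omega)

/-- The algebraic step of the greedy algorithm. -/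
theorem step_alg {S Z b b' C D a cc dd dd' : ℝ} (hc : 0 < cc) (hd : 0 < dd) (hd' : 0 ≤ dd')
    (hS : 0 ≤ dd * S + Z * b) (hU : 0 ≤ C * dd - Z)
    (hZ : 0 ≤ cc * D - (C * dd - Z))
    (L1 : dd * a ≤ cc * b) (L3 : dd' * a ≤ cc * b') :
    0 ≤ dd' * (S + (b * C - a * D)) + (cc * D - (C * dd - Z)) * b' := by
  have h1 := mul_le_mul_of_nonneg_left L1 hU
  have h2 := mul_le_mul_of_nonneg_left L3 hZ
  have key : 0 ≤ (dd' * (S + (b * C - a * D)) + (cc * D - (C * dd - Z)) * b') * (cc * dd) := by
    have e : (dd' * (S + (b * C - a * D)) + (cc * D - (C * dd - Z)) * b') * (cc * dd)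
        = cc * dd' * (dd * S + Z * b) + dd' * ((C * dd - Z) * (cc * b) - (C * dd - Z) * (dd * a))
          + dd * ((cc * D - (C * dd - Z)) * (cc * b') - (cc * D - (C * dd - Z)) * (dd' * a)) := by
      ring
    rw [e]
    have t1 : 0 ≤ cc * dd' * (dd * S + Z * b) := mul_nonneg (mul_nonneg hc.le hd') hS
    have t2 : 0 ≤ dd' * ((C * dd - Z) * (cc * b) - (C * dd - Z) * (dd * a)) :=
      mul_nonneg hd' (by linarith)
    have t3 : 0 ≤ dd * ((cc * D - (C * dd - Z)) * (cc * b') - (cc * D - (C * dd - Z)) * (dd' * a)) :=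
      mul_nonneg hd.le (by linarith)
    linarith
  exact nonneg_of_mul_nonneg_left key (mul_pos hc hd)

/-- `κ_s = Σ_(y+z=s) (c_y b_z - d_y a_z)`. -/
def kap (a b c d : ℕ → ℝ) (s : ℕ) : ℝ := ∑ w ∈ range (s + 1), (c w * b (s - w) - d w * a (s - w))

/-- The partial sums of the numerator. -/
def Sf (a b c d : ℕ → ℝ) (x n : ℕ) : ℝ :=
  ∑ w ∈ range (n + 1), (b (x + 1 - w) * Cf c d x w - a (x + 1 - w) * Cf d d x w)

theorem Sf_succ (a b c d : ℕ → ℝ) (x n : ℕ) : Sf a b c d x (n + 1) = Sf a b c d x n +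
    (b (x - n) * Cf c d x (n + 1) - a (x - n) * Cf d d x (n + 1)) := by
  rw [Sf, Finset.sum_range_succ, ← Sf]
  have : x + 1 - (n + 1) = x - n := by omega
  rw [this]

theorem Sf_zero (a b c d : ℕ → ℝ) (x : ℕ) : Sf a b c d x 0 =
    0 + (b (x + 1) * Cf c d x 0 - a (x + 1) * Cf d d x 0) := by
  simp [Sf]

theorem num_eq (a b c d : ℕ → ℝ) (x : ℕ) :
    d x * kap a b c d (x + 1) - d (x + 1) * kap a b c d x =
      Sf a b c d x x + b 0 * (d x * c (x + 1) - d (x + 1) * c x) := by
  have k1 := shift_sum c (fun w => b (x + 1 - w)) (d x) (d (x + 1)) (x + 1)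
  have k2 := shift_sum d (fun w => a (x + 1 - w)) (d x) (d (x + 1)) (x + 1)
  have e : ∀ f g : ℕ → ℝ, ∑ w ∈ range (x + 1), f w * g (x + 1 - (w + 1))
      = ∑ w ∈ range (x + 1), f w * g (x - w) := by
    intro f g
    refine Finset.sum_congr rfl fun w _ => ?_
    have : x + 1 - (w + 1) = x - w := by omega
    rw [this]
  rw [e] at k1 k2
  have k3 : d x * kap a b c d (x + 1) - d (x + 1) * kap a b c d x =
      ∑ w ∈ range (x + 1 + 1), Cf c d x w * b (x + 1 - w)
        - ∑ w ∈ range (x + 1 + 1), Cf d d x w * a (x + 1 - w) := by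
    rw [k1, k2]
    unfold kap
    rw [Finset.sum_sub_distrib, Finset.sum_sub_distrib]
    ring
  rw [k3, ← Finset.sum_sub_distrib, Finset.sum_range_succ]
  have k4 : ∑ w ∈ range (x + 1), (Cf c d x w * b (x + 1 - w) - Cf d d x w * a (x + 1 - w))
      = Sf a b c d x x := by
    unfold Sf
    refine Finset.sum_congr rfl fun w _ => ?_
    ring
  rw [k4]
  simp only [Nat.sub_self, Cf, Cg]
  ring

/-- **Lemma C.** -/
theorem lemC (a b : ℕ → ℝ) (H : Inter c d x)
    (L1 : ∀ m, m ≤ x → d m * a (m + 1) ≤ c m * b (m + 1))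
    (L3 : ∀ m, m + 1 ≤ x → d m * a (m + 2) ≤ c (m + 1) * b (m + 1))
    (hb : 0 ≤ b 0) :
    d (x + 1) * kap a b c d x ≤ d x * kap a b c d (x + 1) := by
  have claim : ∀ n y, n + y + 1 = x → 0 ≤ d y * Sf a b c d x n + Zf c d x n * b (y + 1) := by
    intro n
    induction n with
    | zero =>
      intro y hy
      have hx : x = y + 1 := by omega
      have hU := H.U_nonneg 0 (by omega)
      have hZ := H.Z_nonneg 0 (by omega)
      rw [Zf_zero] at hU hZ
      simp only [Qf, Pf, Nat.sub_zero] at hU hZ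
      have st := step_alg (S := 0) (Z := 0) (b := b (x + 1)) (b' := b (y + 1)) (C := Cf c d x 0)
        (D := Cf d d x 0) (a := a (x + 1)) (cc := c x) (dd := d x) (dd' := d y)
        (H.cpos x le_rfl) (H.dpos x le_rfl) (H.dpos y (by omega)).le (by simp)
        (by linarith) (by linarith) (L1 x le_rfl) (by
          have := L3 y (by omega)
          rw [hx]; exact this)
      rw [Sf_zero, Zf_zero]
      simp only [Qf, Pf, Nat.sub_zero]
      have e : Cf d d x 0 * c x - Cf c d x 0 * d x = c x * Cf d d x 0 - (Cf c d x 0 * d x - 0) := by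
        ring
      rw [e]; exact st
    | succ n ih =>
      intro y hy
      have e1 : x - (n + 1) = y + 1 := by omega
      have e2 : x - n = y + 2 := by omega
      have hU := H.U_nonneg (n + 1) (by omega)
      have hZ := H.Z_nonneg (n + 1) (by omega)
      rw [Zf_succ] at hU hZ
      simp only [Qf, Pf, e1] at hU hZ
      have st := step_alg (S := Sf a b c d x n) (Z := Zf c d x n) (b := b (y + 2))
        (b' := b (y + 1)) (C := Cf c d x (n + 1))
        (D := Cf d d x (n + 1)) (a := a (y + 2)) (cc := c (y + 1)) (dd := d (y + 1)) (dd' := d y)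
        (H.cpos _ (by omega)) (H.dpos _ (by omega)) (H.dpos y (by omega)).le
        (ih (y + 1) (by omega))
        (by linarith) (by linarith) (L1 (y + 1) (by omega)) (L3 y (by omega))
      rw [Sf_succ, Zf_succ, e2]
      simp only [Qf, Pf, e1]
      have e : Zf c d x n + (Cf d d x (n + 1) * c (y + 1) - Cf c d x (n + 1) * d (y + 1))
          = c (y + 1) * Cf d d x (n + 1) - (Cf c d x (n + 1) * d (y + 1) - Zf c d x n) := by
        ring
      rw [e]; exact st
  have last : 0 ≤ Sf a b c d x x := by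
    have hU := H.U_nonneg x le_rfl
    have pc := H.cpos 0 (by omega)
    have pd := H.dpos 0 (by omega)
    cases x with
    | zero =>
      have h0 := Zf_last (c := c) (d := d) (x := 0)
      rw [Zf_zero] at hU h0
      simp only [Qf, Pf, Nat.sub_zero] at hU h0
      have st := step_alg (S := 0) (Z := 0) (b := b 1) (b' := a 1 / c 0) (C := Cf c d 0 0)
        (D := Cf d d 0 0) (a := a 1) (cc := c 0) (dd := d 0) (dd' := 1)
        pc pd (by norm_num) (by simp)
        (by linarith) (by linarith) (L1 0 le_rfl) (by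
          rw [mul_div_cancel₀ _ pc.ne']; linarith)
      rw [Sf_zero]
      have e : c 0 * Cf d d 0 0 - (Cf c d 0 0 * d 0 - 0) = 0 := by linarith
      rw [e] at st
      simpa using st
    | succ n =>
      have h0 := Zf_last (c := c) (d := d) (x := n + 1)
      rw [Zf_succ] at hU h0
      simp only [Qf, Pf, Nat.sub_self] at hU h0
      have st := step_alg (S := Sf a b c d (n + 1) n) (Z := Zf c d (n + 1) n) (b := b 1)
        (b' := a 1 / c 0) (C := Cf c d (n + 1) (n + 1))
        (D := Cf d d (n + 1) (n + 1)) (a := a 1) (cc := c 0) (dd := d 0) (dd' := 1)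
        pc pd (by norm_num) (claim n 0 (by omega))
        (by linarith) (by linarith) (L1 0 (by omega)) (by
          rw [mul_div_cancel₀ _ pc.ne']; linarith)
      rw [Sf_succ]
      have e1 : n + 1 - n = 1 := by omega
      have e : c 0 * Cf d d (n + 1) (n + 1) - (Cf c d (n + 1) (n + 1) * d 0 - Zf c d (n + 1) n) = 0 := by
        linarith
      rw [e] at st
      rw [e1]
      simpa using st
  have h1 := H.h1 x le_rfl
  have := mul_nonneg hb (sub_nonneg.2 h1)
  have e := num_eq a b c d x
  nlinarith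

end Pool.Agent.Helper64.AF
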